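import Pool.Agent.Run7.h361.IsoMain

/-!
# Convex sets with exactly two circular isoptics do not exist (MP_08e0ef_gt, Q1: answered, no)

Let `S` be a compact convex set in the plane. The angle of sight of `S` at a point `Q` outside `S` is
the opening angle of the cone of the rays from `Q` through the points of `S`, that is, the supremum
(attained) of the angles `A Q B` with `A, B` in `S`. The isoptic of `S` at `α` is the set of the points
outside `S` at which the angle of sight is `α`.

**Theorem.** If the isoptics of `S` at two different angles `α₁, α₂` in `(0, π)` are circles, then `S` is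
a disk of positive radius, so that its isoptic at every `α` in `(0, π)` is a circle, and all these
circles have the centre of `S`. So the set of the angles at which the isoptic of `S` is a circle is empty,
or has one element, or is all of `(0, π)`; no compact convex set has exactly two circular isoptics (Q1),
and the second question (Q2) is about the empty set: in fact any two circular isoptics of the same set
are concentric.

Proof. Let the isoptic at `α = π - β` be the circle with the centre `c` and the radius `R`. The set lies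
inside the circle: otherwise it lies outside, a support line of `S` passes through `c`, and the
other tangents from its two points on the circle would be parallel support lines with the
same normal. Let `g(θ) = R cos δ(θ)` be the support function of `S` with respect to `c`. The point of the
circle on the support line with the normal angle `θ` sees `S` under the angle `α`, so it lies on the
support line with the normal angle `θ + β`, and `δ(θ + β) = β - δ(θ)`. In particular `g` has
the period `2 β`. For two circular isoptics, with the centres `c₁, c₂` and `β₁, β₂`, the difference of the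
two support functions is a first harmonic, and it is annihilated by the product of the difference
operators of the two periods; so `c₁ = c₂` and `g` is the same function. The translations by
`β₁` and `β₂` act on the values of `g` by decreasing involutions `F₁`, `F₂` which commute; `F₁ F₂` is an
increasing involution, hence the identity, and `F₁ = F₂`. So for all `θ` the pair of the numbers
`x = g(θ)`, `y = F₁(x) = F₂(x)` satisfies `x² + y² - 2 x y cos β = R² sin² β` for both circles, which determines
`x y` and `x² + y²`, and `x` is one of finitely many numbers. By continuity `g` is constant.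

(The idea to compare the periods is due to helper371.)
-/

set_option autoImplicit false

open Set

namespace Pool.Agent.Results.MP_08e0ef_gt.AtMostOneOrDisk

/-- The Euclidean plane. -/
abbrev Plane : Type := EuclideanSpace ℝ (Fin 2)

/-- The angle of sight of `S` at `Q`: the supremum of the angles `A Q B`, for `A, B` in `S`. -/
noncomputable def sightAngle (S : Set Plane) (Q : Plane) : ℝ :=
  sSup {a | ∃ A ∈ S, ∃ B ∈ S, a = EuclideanGeometry.angle A Q B}

/-- The isoptic of `S` at the angle `α`: the points outside `S` at which the angle of sight of `S`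
is `α`. -/
def isoptic (S : Set Plane) (α : ℝ) : Set Plane :=
  {Q | Q ∉ S ∧ sightAngle S Q = α}

/-- The angles `α` in `(0, π)` such that the isoptic of `S` at `α` is a circle. -/
def circularAngles (S : Set Plane) : Set ℝ :=
  {α | α ∈ Ioo 0 Real.pi ∧ ∃ (c : Plane) (R : ℝ), 0 < R ∧ isoptic S α = Metric.sphere c R}

section proof

open Run7.h361.Iso

lemma sight_map {P P' : Type*} [NormedAddCommGroup P] [InnerProductSpace ℝ P]
    [NormedAddCommGroup P'] [InnerProductSpace ℝ P'] (e : P ≃ₗᵢ[ℝ] P') (S : Set P) (Q : P) :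
    Run7.h361.Iso.sightAngle (e '' S) (e Q) = Run7.h361.Iso.sightAngle S Q := by
  have hang : ∀ A B : P, EuclideanGeometry.angle (e A) (e Q) (e B) =
      EuclideanGeometry.angle A Q B := by
    intro A B
    unfold EuclideanGeometry.angle
    simp only [vsub_eq_sub]
    rw [← map_sub, ← map_sub]
    exact LinearIsometry.angle_map e.toLinearIsometry _ _
  unfold Run7.h361.Iso.sightAngle
  congr 1
  ext a
  constructor
  · rintro ⟨_, ⟨A, hA, rfl⟩, _, ⟨B, hB, rfl⟩, h⟩
    exact ⟨A, hA, B, hB, by rw [h, hang]⟩
  · rintro ⟨A, hA, B, hB, h⟩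
    exact ⟨e A, ⟨A, hA, rfl⟩, e B, ⟨B, hB, rfl⟩, by rw [h, hang]⟩

lemma isoptic_map {P P' : Type*} [NormedAddCommGroup P] [InnerProductSpace ℝ P]
    [NormedAddCommGroup P'] [InnerProductSpace ℝ P'] (e : P ≃ₗᵢ[ℝ] P') (S : Set P) (α : ℝ) :
    Run7.h361.Iso.isoptic (e '' S) α = e '' Run7.h361.Iso.isoptic S α := by
  ext Q
  obtain ⟨Q, rfl⟩ := e.surjective Q
  have h1 : e Q ∈ e '' S ↔ Q ∈ S := e.injective.mem_set_image
  have h2 : e Q ∈ e '' Run7.h361.Iso.isoptic S α ↔ Q ∈ Run7.h361.Iso.isoptic S α :=
    e.injective.mem_set_image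
  rw [h2]
  unfold Run7.h361.Iso.isoptic
  constructor
  · rintro ⟨h3, h4⟩
    refine ⟨fun h => h3 (h1.2 h), ?_⟩
    rw [← h4, sight_map]
  · rintro ⟨h3, h4⟩
    refine ⟨fun h => h3 (h1.1 h), ?_⟩
    rw [sight_map]
    exact h4

/-- The theorem. -/
theorem two_circular {S : Set Plane} (hc : IsCompact S) (hv : Convex ℝ S) {α₁ α₂ : ℝ}
    (h1 : α₁ ∈ circularAngles S) (h2 : α₂ ∈ circularAngles S) (hne : α₁ ≠ α₂) :
    ∃ (c : Plane) (r : ℝ), 0 < r ∧ S = Metric.closedBall c r ∧
      ∀ α ∈ Ioo 0 Real.pi, isoptic S α = Metric.sphere c (r / Real.sin (α / 2)) := by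
  set e : Plane ≃ₗᵢ[ℝ] ℂ := Complex.orthonormalBasisOneI.repr.symm with he
  have hcirc : ∀ α ∈ circularAngles S, CircularAt (e '' S) α := by
    rintro α ⟨ha, c, R, hR, h⟩
    refine ⟨ha, e c, R, hR, ?_⟩
    rw [isoptic_map, ← e.image_sphere]
    congr 1
  obtain ⟨c, r, hr, hS, hall⟩ := main (hc.image e.continuous)
    (hv.linear_image e.toLinearEquiv.toLinearMap) (hcirc _ h1) (hcirc _ h2) hne
  have hback : S = e.symm '' (e '' S) := by
    rw [image_image]
    simp
  refine ⟨e.symm c, r, hr, ?_, ?_⟩
  · rw [hback, hS, e.symm.image_closedBall]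
  · intro α hα
    have h3 : isoptic S α = e.symm '' (Run7.h361.Iso.isoptic (e '' S) α) := by
      rw [← isoptic_map e.symm, ← hback]
      rfl
    rw [h3, hall α hα.1 hα.2, e.symm.image_sphere]

end proof

/-- **Two circular isoptics.**
(1) If a compact convex set `S` in the plane has circular isoptics at two different angles, then it is
a disk of positive radius `r`, and its isoptic at every `α ∈ (0, π)` is the circle with the centre of `S`
and the radius `r / sin (α / 2)`.
(2) Hence the set of the angles of the circular isoptics of a compact convex set has at most one element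
or is `(0, π)`.
(3) (Q1) No compact convex set has exactly two circular isoptics.
(4) (Q2) Any two circular isoptics of the same compact convex set have the same centre. -/
theorem result :
    (∀ S : Set Plane, IsCompact S → Convex ℝ S → ∀ α₁ ∈ circularAngles S,
      ∀ α₂ ∈ circularAngles S, α₁ ≠ α₂ → ∃ (c : Plane) (r : ℝ), 0 < r ∧
        S = Metric.closedBall c r ∧
        ∀ α ∈ Ioo 0 Real.pi, isoptic S α = Metric.sphere c (r / Real.sin (α / 2))) ∧
    (∀ S : Set Plane, IsCompact S → Convex ℝ S →
      (circularAngles S).Subsingleton ∨ circularAngles S = Ioo 0 Real.pi) ∧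
    (¬ ∃ S : Set Plane, IsCompact S ∧ Convex ℝ S ∧ (circularAngles S).encard = 2) ∧
    (∀ S : Set Plane, IsCompact S → Convex ℝ S → ∀ α₁ ∈ Ioo 0 Real.pi, ∀ α₂ ∈ Ioo 0 Real.pi,
      ∀ (c₁ c₂ : Plane) (R₁ R₂ : ℝ), 0 < R₁ → 0 < R₂ → isoptic S α₁ = Metric.sphere c₁ R₁ →
        isoptic S α₂ = Metric.sphere c₂ R₂ → c₁ = c₂) := by
  have h1 : ∀ S : Set Plane, IsCompact S → Convex ℝ S → ∀ α₁ ∈ circularAngles S,
      ∀ α₂ ∈ circularAngles S, α₁ ≠ α₂ → ∃ (c : Plane) (r : ℝ), 0 < r ∧
        S = Metric.closedBall c r ∧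
        ∀ α ∈ Ioo 0 Real.pi, isoptic S α = Metric.sphere c (r / Real.sin (α / 2)) :=
    fun S hc hv α₁ h1 α₂ h2 hne => two_circular hc hv h1 h2 hne
  have h2 : ∀ S : Set Plane, IsCompact S → Convex ℝ S →
      (circularAngles S).Subsingleton ∨ circularAngles S = Ioo 0 Real.pi := by
    intro S hc hv
    by_cases hs : (circularAngles S).Subsingleton
    · exact Or.inl hs
    · right
      rw [Set.not_subsingleton_iff] at hs
      obtain ⟨a, ha, b, hb, hab⟩ := hs
      obtain ⟨c, r, hr, -, hall⟩ := h1 S hc hv a ha b hb hab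
      apply Subset.antisymm
      · exact fun α hα => hα.1
      · intro α hα
        have hs : 0 < Real.sin (α / 2) :=
          Real.sin_pos_of_pos_of_lt_pi (by linarith [hα.1]) (by linarith [hα.1, hα.2])
        exact ⟨hα, c, r / Real.sin (α / 2), div_pos hr hs, hall α hα⟩
  have hsphere : ∀ (c₁ c₂ : Plane) (R₁ R₂ : ℝ), 0 < R₁ → 0 < R₂ →
      Metric.sphere c₁ R₁ = Metric.sphere c₂ R₂ → c₁ = c₂ := by
    intro c₁ c₂ R₁ R₂ hR₁ hR₂ h
    by_contra hne
    have hn : 0 < ‖c₂ - c₁‖ := norm_pos_iff.2 (sub_ne_zero.2 (Ne.symm hne))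
    set u : Plane := (‖c₂ - c₁‖)⁻¹ • (c₂ - c₁) with hu
    have hun : ‖u‖ = 1 := by
      rw [hu, norm_smul, norm_inv, norm_norm]
      field_simp
    have hd : c₂ - c₁ = ‖c₂ - c₁‖ • u := by
      rw [hu, smul_smul, mul_inv_cancel₀ hn.ne', one_smul]
    have key : ∀ t : ℝ, |t| = R₁ → |t - ‖c₂ - c₁‖| = R₂ := by
      intro t ht
      have h3 : c₁ + t • u ∈ Metric.sphere c₁ R₁ := by
        rw [mem_sphere_iff_norm, add_sub_cancel_left, norm_smul, hun, mul_one, Real.norm_eq_abs, ht]
      rw [h, mem_sphere_iff_norm] at h3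
      have h4 : c₁ + t • u - c₂ = (t - ‖c₂ - c₁‖) • u := by
        rw [sub_smul, ← hd]
        abel
      rwa [h4, norm_smul, hun, mul_one, Real.norm_eq_abs] at h3
    have h5 := key R₁ (abs_of_pos hR₁)
    have h6 := key (-R₁) (by rw [abs_neg, abs_of_pos hR₁])
    rw [abs_of_neg (by linarith : -R₁ - ‖c₂ - c₁‖ < 0)] at h6
    rcases abs_cases (R₁ - ‖c₂ - c₁‖) with ⟨h7, -⟩ | ⟨h7, -⟩
    · rw [h7] at h5
      linarith
    · rw [h7] at h5
      linarith
  refine ⟨h1, h2, ?_, ?_⟩
  · rintro ⟨S, hc, hv, hcard⟩
    rcases h2 S hc hv with h | h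
    · have h3 := Set.encard_le_one_iff_subsingleton.2 h
      rw [hcard] at h3
      exact absurd h3 (by norm_num)
    · rw [h] at hcard
      have h3 : (Ioo (0 : ℝ) Real.pi).Infinite := Ioo_infinite Real.pi_pos
      rw [h3.encard_eq] at hcard
      exact absurd hcard (by simp)
  · intro S hc hv α₁ hα₁ α₂ hα₂ c₁ c₂ R₁ R₂ hR₁ hR₂ e₁ e₂
    by_cases hα : α₁ = α₂
    · subst hα
      exact hsphere c₁ c₂ R₁ R₂ hR₁ hR₂ (e₁.symm.trans e₂)
    · obtain ⟨c, r, hr, -, hall⟩ := h1 S hc hv α₁ ⟨hα₁, c₁, R₁, hR₁, e₁⟩ α₂ ⟨hα₂, c₂, R₂, hR₂, e₂⟩ hα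
      have hs : ∀ α ∈ Ioo 0 Real.pi, 0 < r / Real.sin (α / 2) := by
        intro α hα
        exact div_pos hr
          (Real.sin_pos_of_pos_of_lt_pi (by linarith [hα.1]) (by linarith [hα.1, hα.2]))
      have h3 := hsphere c₁ c R₁ _ hR₁ (hs α₁ hα₁) (e₁.symm.trans (hall α₁ hα₁))
      have h4 := hsphere c₂ c R₂ _ hR₂ (hs α₂ hα₂) (e₂.symm.trans (hall α₂ hα₂))
      rw [h3, h4]

end Pool.Agent.Results.MP_08e0ef_gt.AtMostOneOrDisk
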